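import Pool.Agent.K7.H20.AW.DecFin

/-!
# MP_a1ec0a_al: generators that occur at most twice can be decoupled

Let `M` be an arbitrary Coxeter matrix, `Y` a set of generators and `w` a word in which every generator
outside `Y` occurs at most twice (more generally: has only odd exponents and at most two syllables, or
at most three if it has no label `3` with a generator of the word). Then `w = 1` in the Artin group
`A_M` if and only if `w = 1` in the Artin group of the matrix `decouple M Y`, in which all labels other
than `2` that involve a generator outside `Y` are replaced by infinity.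
-/

set_option autoImplicit false

namespace Pool.Agent.Results.MP_a1ec0a_al.DecoupledGenerators

open Pool.Agent.K7.H20.AW

theorem result {S : Type*} [Fintype S] [DecidableEq S] (M : CoxeterMatrix S) (Y : Finset S)
    (w : List (S × ℤ))
    (hw : ∀ s, s ∉ Y → (∀ p ∈ w, p.1 = s → Odd p.2) ∧
      (syllables s w ≤ 2 ∨
        (syllables s w ≤ 3 ∧ ∀ t : S, (∃ p ∈ w, p.1 = t) → M t s ≠ 3))) :
    value M w = 1 ↔ value (decouple M Y) w = 1 :=
  ((value_iff w).trans (dec_thm hw)).trans (value_iff (M := decouple M Y) w).symm

end Pool.Agent.Results.MP_a1ec0a_al.DecoupledGenerators
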