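import Pool.Agent.K7.H20.AW.Fin

/-!
# MP_a1ec0a_al: words with few syllables of each generator, in all Artin groups

For an arbitrary Coxeter matrix `M`, the word problem of the Artin group `A_M` is solved for all words
(with arbitrary integer exponents) in which every generator has at most two syllables, or at most three
if it is joined by no label `3` to a generator of the word: such a word represents `1` in `A_M` iff the
shuffle procedure `reduce`, which only uses the labels `2`, empties it.
-/

set_option autoImplicit false

namespace Pool.Agent.Results.MP_a1ec0a_al.FewSyllables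

open Pool.Agent.K7.H20.AW

theorem result {S : Type*} [Fintype S] [DecidableEq S] (M : CoxeterMatrix S) (w : List (S × ℤ))
    (hw : ∀ s : S, syllables s w ≤ 2 ∨
      (syllables s w ≤ 3 ∧ ∀ t : S, (∃ p ∈ w, p.1 = t) → M t s ≠ 3)) :
    value M w = 1 ↔ reduce M w = [] := by
  have key : val M w = 1 ↔ val (ra M) w = 1 :=
    ⟨supp_thm hw, fun h => by rw [← qo_val, h, map_one]⟩
  exact ((value_iff w).trans key).trans (reduce_iff w).symm

end Pool.Agent.Results.MP_a1ec0a_al.FewSyllables
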