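import Pool.Agent.K7.H20.AW.FreeM
import Pool.Agent.K7.H20.AW.Fin

/-!
# MP_a1ec0a_al: words with at most two syllables of each generator outside a right-angled part

Let `Y` be a set of generators of an Artin group, any two of which have the label `2` or infinity; the
labels between `Y` and the other generators, and between the other generators, are arbitrary. The word
problem is solved for all words (with arbitrary integer exponents) in which every generator outside `Y`
has at most two syllables, while the generators in `Y` occur without any restriction: such a word
represents `1` iff the shuffle procedure `reduce`, which only uses the labels `2`, empties it.

The proof uses representations of the Artin group by transvections, in which the coefficients of two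
generators in `Y` with the label infinity are free noncommuting variables and the coefficients of two
generators with a finite label `m` are real numbers with the product `-4 cos² (π / m)`. With the chains of
maximal length in a reduced word they determine the elements of the subgroup of `Y` that commute with
a power of a generator `b` outside `Y` (`c1` in `Pool/Agent/K7/H20/AW/C12.lean`), and those that conjugate
a power of another one to an element commuting with a power of `b` (`c2`, same file).
-/

set_option autoImplicit false

namespace Pool.Agent.Results.MP_a1ec0a_al.RightAngledPart

open Pool.Agent.K7.H20.AW

theorem result {S : Type*} [Fintype S] [DecidableEq S] (M : CoxeterMatrix S) (Y : Finset S)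
    (hY : ∀ s ∈ Y, ∀ t ∈ Y, s ≠ t → M s t = 2 ∨ M s t = 0) (w : List (S × ℤ))
    (hw : ∀ s : S, s ∉ Y → syllables s w ≤ 2) :
    value M w = 1 ↔ reduce M w = [] := by
  have key : val M w = 1 ↔ val (ra M) w = 1 :=
    ⟨fm hY _ w rfl hw, fun h => by rw [← qo_val, h, map_one]⟩
  exact ((value_iff w).trans key).trans (reduce_iff w).symm

end Pool.Agent.Results.MP_a1ec0a_al.RightAngledPart
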