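import Pool.Agent.K7.H20.AW.RelF

/-!
# MP_a1ec0a_al: all relations of an Artin group in which a generator occurs three times

Let `M` be an arbitrary Coxeter matrix and `b` a generator. The equation
`b ^ a * g₁ * b ^ c * g₂ * b ^ d * g₃ = 1` with odd exponents and with `g₁, g₂, g₃` in the parabolic
subgroup generated by the other generators holds exactly if, up to elements of the parabolic subgroup
of the generators that commute with `b`, it is a relation between `b` and one generator `t` with
`m_tb = 3`.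
-/

set_option autoImplicit false

namespace Pool.Agent.Results.MP_a1ec0a_al.ThreeOccurrences

open Pool.Agent.K7.H20.AW

theorem result {S : Type*} [Fintype S] [DecidableEq S] (M : CoxeterMatrix S) (b : S)
    (a c d : ℤ) (ha : Odd a) (hc : Odd c) (hd : Odd d) (g₁ g₂ g₃ : ArtinGroup M)
    (h₁ : g₁ ∈ parabolic M {s | s ≠ b}) (h₂ : g₂ ∈ parabolic M {s | s ≠ b})
    (h₃ : g₃ ∈ parabolic M {s | s ≠ b}) :
    gen M b ^ a * g₁ * gen M b ^ c * g₂ * gen M b ^ d * g₃ = 1 ↔
      ∃ t, M t b = 3 ∧ a + c + d + a * c * d = 0 ∧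
        ∃ l ∈ parabolic M {s | M s b = 2}, ∃ m ∈ parabolic M {s | M s b = 2},
        ∃ n ∈ parabolic M {s | M s b = 2},
          g₁ = l * gen M t ^ (-d) * m ∧ g₂ = m⁻¹ * gen M t ^ (-a) * n ∧
            g₃ = n⁻¹ * gen M t ^ (-c) * l⁻¹ :=
  rel3_iff b ha hc hd h₁ h₂ h₃

end Pool.Agent.Results.MP_a1ec0a_al.ThreeOccurrences
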